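import Pool.Agent.H66.ZK.Stm

set_option autoImplicit false

open Polynomial KaehlerDifferential
open scoped TensorProduct

open Pool.Agent.H66.TK Pool.Agent.H66.ZK

namespace Pool.Agent.H27.ZK

section der

variable (k : Type) [Field k] [CharZero k] (E : Type) [Field E] [Algebra k E] [Algebra k[X] E]
  [IsScalarTower k k[X] E] [Algebra (RatFunc k) E] [IsScalarTower k[X] (RatFunc k) E]
  [FiniteDimensional (RatFunc k) E]

/-- The derivation `d/dr` extends to the finite extensions of `k(r)`. -/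
theorem exists_der : ∃ δ : Derivation k E E, δ (algebraMap k[X] E X) = 1 := by
  have h1 : Algebra.FormallyEtale k[X] (RatFunc k) :=
    Algebra.FormallyEtale.of_isLocalization (nonZeroDivisors k[X])
  have h0 : Algebra.IsSeparable (RatFunc k) E := inferInstance
  have h2 : Algebra.FormallyEtale (RatFunc k) E := Algebra.FormallyEtale.of_isSeparable _ E
  have h3 : Algebra.FormallyEtale k[X] E := Algebra.FormallyEtale.comp k[X] (RatFunc k) E
  let φ : E ⊗[k[X]] Ω[k[X]⁄k] →ₗ[E] E :=
    (TensorProduct.AlgebraTensorModule.rid k[X] E E).toLinearMap ∘ₗ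
      LinearMap.baseChange E (polynomialEquiv k).toLinearMap
  let ψ : Ω[E⁄k] →ₗ[E] E := φ ∘ₗ (tensorKaehlerEquivOfFormallyEtale k k[X] E).symm.toLinearMap
  refine ⟨ψ.compDer (D k E), ?_⟩
  have h4 := tensorKaehlerEquivOfFormallyEtale_symm_D_algebraMap k k[X] E X
  change (φ ((tensorKaehlerEquivOfFormallyEtale k k[X] E).symm (D k E (algebraMap k[X] E X)))) = 1
  rw [h4]
  simp [φ]

end der

section nst

attribute [local instance] MvPolynomial.algebraMvPolynomial

variable {k : Type} [Field k]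

/-- Specialisation of the parameter. -/
theorem exists_pt [CharZero k] {ι : Type} (f : ι → MvPolynomial (Fin 2) k[X])
    (h : {r : k | ∃ p : Fin 2 → k, ∀ i, MvPolynomial.eval₂ (Polynomial.evalRingHom r) p (f i) = 0}.Infinite) :
    ∃ (E : Type) (_ : Field E) (_ : Algebra k E) (_ : Algebra k[X] E)
      (_ : IsScalarTower k k[X] E) (_ : Algebra (RatFunc k) E)
      (_ : IsScalarTower k[X] (RatFunc k) E) (_ : FiniteDimensional (RatFunc k) E) (p : Fin 2 → E),
      ∀ i, MvPolynomial.eval₂ (algebraMap k[X] E) p (f i) = 0 := by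
  set I : Ideal (MvPolynomial (Fin 2) k[X]) := Ideal.span (Set.range f) with hI
  have hne : I.map (algebraMap _ (MvPolynomial (Fin 2) (RatFunc k))) ≠ ⊤ := by
    rw [IsLocalization.map_algebraMap_ne_top_iff_disjoint
      ((nonZeroDivisors k[X]).map (MvPolynomial.C (σ := Fin 2)))]
    rw [Set.disjoint_left]
    rintro _ ⟨q, hq, rfl⟩ hqI
    have hq0 : (q : k[X]) ≠ 0 := nonZeroDivisors.ne_zero hq
    apply h
    apply (Polynomial.rootSet_finite q k).subset
    rintro r ⟨p, hp⟩
    rw [Polynomial.mem_rootSet]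
    refine ⟨hq0, ?_⟩
    have h1 : I ≤ RingHom.ker (MvPolynomial.eval₂Hom (Polynomial.evalRingHom r) p) := by
      rw [hI, Ideal.span_le]
      rintro _ ⟨i, rfl⟩
      exact hp i
    have h2 := h1 hqI
    rw [RingHom.mem_ker] at h2
    simpa using h2
  obtain ⟨M, hM, hIM⟩ := Ideal.exists_le_maximal _ hne
  let : Field (MvPolynomial (Fin 2) (RatFunc k) ⧸ M) := Ideal.Quotient.field M
  refine ⟨MvPolynomial (Fin 2) (RatFunc k) ⧸ M, inferInstance, inferInstance, inferInstance,
    inferInstance, inferInstance, inferInstance, ?_, fun j => Ideal.Quotient.mk M (MvPolynomial.X j), ?_⟩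
  · exact finite_of_finite_type_of_isJacobsonRing (RatFunc k) (MvPolynomial (Fin 2) (RatFunc k) ⧸ M)
  · intro i
    have h1 : algebraMap _ (MvPolynomial (Fin 2) (RatFunc k)) (f i) ∈ M :=
      hIM (Ideal.mem_map_of_mem _ (Ideal.subset_span ⟨i, rfl⟩))
    have h2 : ∀ g : MvPolynomial (Fin 2) k[X],
        MvPolynomial.eval₂ (algebraMap k[X] (MvPolynomial (Fin 2) (RatFunc k) ⧸ M))
          (fun j => Ideal.Quotient.mk M (MvPolynomial.X j)) g =
        Ideal.Quotient.mk M (algebraMap _ (MvPolynomial (Fin 2) (RatFunc k)) g) := by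
      intro g
      have h3 : (MvPolynomial.eval₂Hom (algebraMap k[X] (MvPolynomial (Fin 2) (RatFunc k) ⧸ M))
          (fun j => Ideal.Quotient.mk M (MvPolynomial.X j))) =
          (Ideal.Quotient.mk M).comp (algebraMap _ (MvPolynomial (Fin 2) (RatFunc k))) := by
        apply MvPolynomial.ringHom_ext
        · intro q
          simp only [MvPolynomial.eval₂Hom_C, RingHom.comp_apply, MvPolynomial.algebraMap_def,
            MvPolynomial.map_C]
          rfl
        · intro j
          simp only [MvPolynomial.eval₂Hom_X', RingHom.comp_apply, MvPolynomial.algebraMap_def,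
            MvPolynomial.map_X]
      exact congrArg (fun F => F g) h3
    rw [h2, Ideal.Quotient.eq_zero_iff_mem]
    exact h1

/-- Points over extensions and points over `k`. -/
theorem exists_pt' [IsAlgClosed k] {ι : Type} {n : ℕ} (f : ι → MvPolynomial (Fin n) k) (E : Type) [Field E]
    [Algebra k E] (p : Fin n → E) (h : ∀ i, MvPolynomial.aeval p (f i) = 0) :
    ∃ q : Fin n → k, ∀ i, MvPolynomial.eval q (f i) = 0 := by
  set I : Ideal (MvPolynomial (Fin n) k) := Ideal.span (Set.range f) with hI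
  have hne : I ≠ ⊤ := by
    intro hT
    have h1 : I ≤ RingHom.ker (MvPolynomial.aeval p : MvPolynomial (Fin n) k →ₐ[k] E) := by
      rw [hI, Ideal.span_le]
      rintro _ ⟨i, rfl⟩
      exact h i
    have h2 : (1 : MvPolynomial (Fin n) k) ∈ I := by rw [hT]; trivial
    have h3 := h1 h2
    rw [RingHom.mem_ker, map_one] at h3
    exact one_ne_zero h3
  obtain ⟨M, hM, hIM⟩ := Ideal.exists_le_maximal _ hne
  obtain ⟨q, hq⟩ := MvPolynomial.isMaximal_iff_eq_vanishingIdeal_singleton (K := k) |>.1 hM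
  refine ⟨q, fun i => ?_⟩
  have h1 : f i ∈ M := hIM (Ideal.subset_span ⟨i, rfl⟩)
  rw [hq, MvPolynomial.mem_vanishingIdeal_iff] at h1
  simpa using h1 q rfl

end nst

section der2

variable {k : Type} [CommRing k] {E : Type} [CommRing E] [Algebra k E] (δ : Derivation k E E)

theorem der_q2 (c : Fin 3 → E) (x : Fin 2 → E) : δ (q2 c x) = q2 (fun i => δ (c i)) x +
    (2 * c 0 * x 0 + c 1 * x 1) * δ (x 0) + (c 1 * x 0 + 2 * c 2 * x 1) * δ (x 1) := by
  unfold q2
  simp only [map_add, Derivation.leibniz, Derivation.leibniz_pow, smul_eq_mul, nsmul_eq_mul]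
  push_cast
  ring

theorem der_q3 (c : Fin 4 → E) (x : Fin 2 → E) : δ (q3 c x) = q3 (fun i => δ (c i)) x +
    (3 * c 0 * x 0 ^ 2 + 2 * c 1 * (x 0 * x 1) + c 2 * x 1 ^ 2) * δ (x 0) +
    (c 1 * x 0 ^ 2 + 2 * c 2 * (x 0 * x 1) + 3 * c 3 * x 1 ^ 2) * δ (x 1) := by
  unfold q3
  simp only [map_add, Derivation.leibniz, Derivation.leibniz_pow, smul_eq_mul, nsmul_eq_mul]
  push_cast
  ring

theorem der_cub (α : Fin 3 → E) (β : Fin 4 → E) (w : E) (x : Fin 2 → E) :
    δ (cub α β w x) = cw α w x * δ w + c0 α β w x * δ (x 0) + c1 α β w x * δ (x 1) +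
      (q2 (fun i => δ (α i)) x * w + q3 (fun i => δ (β i)) x) := by
  unfold cub
  simp only [map_add, Derivation.leibniz, Derivation.leibniz_pow, smul_eq_mul, nsmul_eq_mul, der_q2,
    der_q3]
  unfold cw c0 c1
  push_cast
  ring

theorem der_FF (a : Fin 3 → Fin 3 → E) (b : Fin 4 → Fin 4 → E) (ha : ∀ i j, δ (a i j) = 0)
    (hb : ∀ i j, δ (b i j) = 0) (w : E) (x y : Fin 2 → E) :
    δ (FF a b w x y) = Fw a w x y * δ w + c0 (ax a y) (bx b y) w x * δ (x 0) +
      c1 (ax a y) (bx b y) w x * δ (x 1) + c0 (ax (tr a) x) (bx (tr b) x) w y * δ (y 0) +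
      c1 (ax (tr a) x) (bx (tr b) x) w y * δ (y 1) := by
  unfold FF
  rw [der_cub]
  have h1 : ∀ i, δ (ax a y i) = (2 * a i 0 * y 0 + a i 1 * y 1) * δ (y 0) +
      (a i 1 * y 0 + 2 * a i 2 * y 1) * δ (y 1) := by
    intro i
    unfold ax
    rw [der_q2]
    simp only [ha, q2]
    ring
  have h2 : ∀ i, δ (bx b y i) = (3 * b i 0 * y 0 ^ 2 + 2 * b i 1 * (y 0 * y 1) + b i 2 * y 1 ^ 2) *
      δ (y 0) + (b i 1 * y 0 ^ 2 + 2 * b i 2 * (y 0 * y 1) + 3 * b i 3 * y 1 ^ 2) * δ (y 1) := by
    intro i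
    unfold bx
    rw [der_q3]
    simp only [hb, q3]
    ring
  simp only [h1, h2]
  unfold Fw c0 c1 ax bx tr q2 q3
  ring

theorem euler_FF (a : Fin 3 → Fin 3 → E) (b : Fin 4 → Fin 4 → E) (w : E) (x y : Fin 2 → E) :
    3 * FF a b w x y = w * Fw a w x y + y 0 * c0 (ax (tr a) x) (bx (tr b) x) w y +
      y 1 * c1 (ax (tr a) x) (bx (tr b) x) w y := by
  unfold FF Fw cub cw c0 c1 ax bx tr q2 q3
  ring

end der2

section six

variable {k : Type} [Field k] (a : Fin 3 → Fin 3 → k) (b : Fin 4 → Fin 4 → k) (u v : Fin 2 → k)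

/-- The equation and its partial derivatives. -/
def six {R : Type} [CommRing R] (φ : k →+* R) (w t r : R) : Fin 6 → R :=
  ![FF (fun i j => φ (a i j)) (fun i j => φ (b i j)) w ![φ (u 0) + φ (v 0) * t, φ (u 1) + φ (v 1) * t]
      ![1, r],
    Fw (fun i j => φ (a i j)) w ![φ (u 0) + φ (v 0) * t, φ (u 1) + φ (v 1) * t] ![1, r],
    c0 (ax (fun i j => φ (a i j)) ![1, r]) (bx (fun i j => φ (b i j)) ![1, r]) w
      ![φ (u 0) + φ (v 0) * t, φ (u 1) + φ (v 1) * t],
    c1 (ax (fun i j => φ (a i j)) ![1, r]) (bx (fun i j => φ (b i j)) ![1, r]) w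
      ![φ (u 0) + φ (v 0) * t, φ (u 1) + φ (v 1) * t],
    c0 (ax (tr (fun i j => φ (a i j))) ![φ (u 0) + φ (v 0) * t, φ (u 1) + φ (v 1) * t])
      (bx (tr (fun i j => φ (b i j))) ![φ (u 0) + φ (v 0) * t, φ (u 1) + φ (v 1) * t]) w ![1, r],
    c1 (ax (tr (fun i j => φ (a i j))) ![φ (u 0) + φ (v 0) * t, φ (u 1) + φ (v 1) * t])
      (bx (tr (fun i j => φ (b i j))) ![φ (u 0) + φ (v 0) * t, φ (u 1) + φ (v 1) * t]) w ![1, r]]

theorem map_six {R S : Type} [CommRing R] [CommRing S] (φ : k →+* R) (ψ : R →+* S) (w t r : R)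
    (i : Fin 6) : ψ (six a b u v φ w t r i) = six a b u v (ψ.comp φ) (ψ w) (ψ t) (ψ r) i := by
  fin_cases i <;>
    simp [six, FF, Fw, cub, cw, c0, c1, ax, bx, tr, q2, q3, map_ofNat]

/-- The critical values in one chart. -/
theorem fin_chart [IsAlgClosed k] [CharZero k] (h : ∀ w t r : k, ∃ i, six a b u v (RingHom.id k) w t r i ≠ 0) :
    {r : k | ∃ w t : k, ∀ i : Fin 4, six a b u v (RingHom.id k) w t r (Fin.castLE (by norm_num) i) = 0}.Finite := by
  by_contra hinf
  set f : Fin 4 → MvPolynomial (Fin 2) k[X] := fun i =>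
    six a b u v ((MvPolynomial.C (σ := Fin 2)).comp Polynomial.C) (MvPolynomial.X 0) (MvPolynomial.X 1)
      (MvPolynomial.C Polynomial.X) (Fin.castLE (by norm_num) i) with hf
  have h1 : {r : k | ∃ p : Fin 2 → k,
      ∀ i, MvPolynomial.eval₂ (Polynomial.evalRingHom r) p (f i) = 0}.Infinite := by
    refine Set.Infinite.mono ?_ hinf
    rintro r ⟨w, t, hwt⟩
    refine ⟨![w, t], fun i => ?_⟩
    have h2 := map_six a b u v ((MvPolynomial.C (σ := Fin 2)).comp Polynomial.C)
      (MvPolynomial.eval₂Hom (Polynomial.evalRingHom r) ![w, t]) (MvPolynomial.X 0) (MvPolynomial.X 1)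
      (MvPolynomial.C Polynomial.X) (Fin.castLE (by norm_num) i)
    have h3 : (MvPolynomial.eval₂Hom (Polynomial.evalRingHom r) ![w, t]).comp
        ((MvPolynomial.C (σ := Fin 2)).comp Polynomial.C) = RingHom.id k := by
      ext c
      simp
    rw [h3] at h2
    simp only [MvPolynomial.eval₂Hom_X', MvPolynomial.eval₂Hom_C] at h2
    refine h2.trans ?_
    simpa using hwt i
  obtain ⟨E, iE, i1, i2, i3, i4, i5, i6, p, hp⟩ := exists_pt f h1
  obtain ⟨δ, hδ⟩ := exists_der k E
  set z : E := algebraMap k[X] E Polynomial.X with hz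
  have h4 : ∀ i : Fin 4, six a b u v (algebraMap k E) (p 0) (p 1) z (Fin.castLE (by norm_num) i) = 0 := by
    intro i
    have h2 := map_six a b u v ((MvPolynomial.C (σ := Fin 2)).comp Polynomial.C)
      (MvPolynomial.eval₂Hom (algebraMap k[X] E) p) (MvPolynomial.X 0) (MvPolynomial.X 1)
      (MvPolynomial.C Polynomial.X) (Fin.castLE (by norm_num) i)
    have h3 : (MvPolynomial.eval₂Hom (algebraMap k[X] E) p).comp
        ((MvPolynomial.C (σ := Fin 2)).comp Polynomial.C) = algebraMap k E := by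
      ext c
      simp only [RingHom.comp_apply, MvPolynomial.eval₂Hom_C]
      rw [IsScalarTower.algebraMap_apply k k[X] E]
      rfl
    rw [h3] at h2
    simp only [MvPolynomial.eval₂Hom_X', MvPolynomial.eval₂Hom_C] at h2
    exact h2.symm.trans (hp i)
  have e0 := h4 0
  have e1 := h4 1
  have e2 := h4 2
  have e3 := h4 3
  have d : ∀ c : k, δ (algebraMap k E c) = 0 := fun c => δ.map_algebraMap c
  have h5 := der_FF δ (fun i j => algebraMap k E (a i j)) (fun i j => algebraMap k E (b i j))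
    (fun i j => d _) (fun i j => d _) (p 0) ![algebraMap k E (u 0) + algebraMap k E (v 0) * p 1,
      algebraMap k E (u 1) + algebraMap k E (v 1) * p 1] ![1, z]
  have h6 := euler_FF (fun i j => algebraMap k E (a i j)) (fun i j => algebraMap k E (b i j))
    (p 0) ![algebraMap k E (u 0) + algebraMap k E (v 0) * p 1,
      algebraMap k E (u 1) + algebraMap k E (v 1) * p 1] ![1, z]
  have e0' : FF (fun i j => algebraMap k E (a i j)) (fun i j => algebraMap k E (b i j))
    (p 0) ![algebraMap k E (u 0) + algebraMap k E (v 0) * p 1,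
      algebraMap k E (u 1) + algebraMap k E (v 1) * p 1] ![1, z] = 0 := e0
  have e1' : Fw (fun i j => algebraMap k E (a i j))
    (p 0) ![algebraMap k E (u 0) + algebraMap k E (v 0) * p 1,
      algebraMap k E (u 1) + algebraMap k E (v 1) * p 1] ![1, z] = 0 := e1
  have e2' : c0 (ax (fun i j => algebraMap k E (a i j)) ![1, z])
      (bx (fun i j => algebraMap k E (b i j)) ![1, z])
    (p 0) ![algebraMap k E (u 0) + algebraMap k E (v 0) * p 1,
      algebraMap k E (u 1) + algebraMap k E (v 1) * p 1] = 0 := e2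
  have e3' : c1 (ax (fun i j => algebraMap k E (a i j)) ![1, z])
      (bx (fun i j => algebraMap k E (b i j)) ![1, z])
    (p 0) ![algebraMap k E (u 0) + algebraMap k E (v 0) * p 1,
      algebraMap k E (u 1) + algebraMap k E (v 1) * p 1] = 0 := e3
  rw [e0', e1', e2', e3'] at h5
  have hz1 : δ ((![1, z] : Fin 2 → E) 1) = 1 := hδ
  have hz0 : δ ((![1, z] : Fin 2 → E) 0) = 0 := δ.map_one_eq_zero
  rw [hz1, hz0, map_zero] at h5
  simp only [zero_mul, mul_zero, mul_one, zero_add, add_zero] at h5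
  rw [e0', e1', ← h5] at h6
  have e5 : six a b u v (algebraMap k E) (p 0) (p 1) z 5 = 0 := h5.symm
  have e4 : six a b u v (algebraMap k E) (p 0) (p 1) z 4 = 0 := by
    have h7 : (0 : E) = (![1, z] : Fin 2 → E) 0 * six a b u v (algebraMap k E) (p 0) (p 1) z 4 := by
      refine Eq.trans ?_ (h6.trans ?_)
      · simp
      · simp only [mul_zero, add_zero, zero_add]
        rfl
    simpa using h7.symm
  have h8 : ∀ i : Fin 6, six a b u v (algebraMap k E) (p 0) (p 1) z i = 0 := by
    intro i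
    fin_cases i
    · exact e0
    · exact e1
    · exact e2
    · exact e3
    · exact e4
    · exact e5
  obtain ⟨q, hq⟩ := exists_pt' (fun i : Fin 6 => six a b u v (MvPolynomial.C (σ := Fin 3))
    (MvPolynomial.X 0) (MvPolynomial.X 1) (MvPolynomial.X 2) i) E ![p 0, p 1, z] (by
      intro i
      have h2 := map_six a b u v (MvPolynomial.C (σ := Fin 3))
        (MvPolynomial.aeval ![p 0, p 1, z] : MvPolynomial (Fin 3) k →ₐ[k] E).toRingHom
        (MvPolynomial.X 0) (MvPolynomial.X 1) (MvPolynomial.X 2) i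
      have h3 : (MvPolynomial.aeval ![p 0, p 1, z] : MvPolynomial (Fin 3) k →ₐ[k] E).toRingHom.comp
          (MvPolynomial.C (σ := Fin 3)) = algebraMap k E := by
        ext c
        simp
      rw [h3] at h2
      refine h2.trans ?_
      simpa using h8 i)
  obtain ⟨i, hi⟩ := h (q 0) (q 1) (q 2)
  apply hi
  have h2 := map_six a b u v (MvPolynomial.C (σ := Fin 3)) (MvPolynomial.eval q)
    (MvPolynomial.X 0) (MvPolynomial.X 1) (MvPolynomial.X 2) i
  have h3 : (MvPolynomial.eval q).comp (MvPolynomial.C (σ := Fin 3)) = RingHom.id k := by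
    ext c
    simp
  rw [h3, hq i] at h2
  simpa using h2.symm

end six

section hom

variable {k : Type} [Field k]

theorem cub_smul (α : Fin 3 → k) (β : Fin 4 → k) (l w : k) (x : Fin 2 → k) :
    cub α β (l * w) (fun i => l * x i) = l ^ 3 * cub α β w x := by
  unfold cub q2 q3
  ring

theorem cw_smul (α : Fin 3 → k) (l w : k) (x : Fin 2 → k) :
    cw α (l * w) (fun i => l * x i) = l ^ 2 * cw α w x := by
  unfold cw q2
  ring

theorem c0_smul (α : Fin 3 → k) (β : Fin 4 → k) (l w : k) (x : Fin 2 → k) :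
    c0 α β (l * w) (fun i => l * x i) = l ^ 2 * c0 α β w x := by
  unfold c0
  ring

theorem c1_smul (α : Fin 3 → k) (β : Fin 4 → k) (l w : k) (x : Fin 2 → k) :
    c1 α β (l * w) (fun i => l * x i) = l ^ 2 * c1 α β w x := by
  unfold c1
  ring

theorem six_zero (a : Fin 3 → Fin 3 → k) (b : Fin 4 → Fin 4 → k) (u v : Fin 2 → k) (t r w l : k)
    (x : Fin 2 → k) (hx : ![u 0 + v 0 * t, u 1 + v 1 * t] = fun i => l * x i)
    (g0 : cub (ax a ![1, r]) (bx b ![1, r]) w x = 0) (g1 : cw (ax a ![1, r]) w x = 0)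
    (g2 : c0 (ax a ![1, r]) (bx b ![1, r]) w x = 0) (g3 : c1 (ax a ![1, r]) (bx b ![1, r]) w x = 0)
    (i : Fin 4) : six a b u v (RingHom.id k) (l * w) t r (Fin.castLE (by norm_num) i) = 0 := by
  have h0 : six a b u v (RingHom.id k) (l * w) t r 0 = 0 := by
    change cub (ax a ![1, r]) (bx b ![1, r]) (l * w) ![u 0 + v 0 * t, u 1 + v 1 * t] = 0
    rw [hx, cub_smul, g0, mul_zero]
  have h1 : six a b u v (RingHom.id k) (l * w) t r 1 = 0 := by
    change cw (ax a ![1, r]) (l * w) ![u 0 + v 0 * t, u 1 + v 1 * t] = 0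
    rw [hx, cw_smul, g1, mul_zero]
  have h2 : six a b u v (RingHom.id k) (l * w) t r 2 = 0 := by
    change c0 (ax a ![1, r]) (bx b ![1, r]) (l * w) ![u 0 + v 0 * t, u 1 + v 1 * t] = 0
    rw [hx, c0_smul, g2, mul_zero]
  have h3 : six a b u v (RingHom.id k) (l * w) t r 3 = 0 := by
    change c1 (ax a ![1, r]) (bx b ![1, r]) (l * w) ![u 0 + v 0 * t, u 1 + v 1 * t] = 0
    rw [hx, c1_smul, g3, mul_zero]
  fin_cases i
  · exact h0
  · exact h1
  · exact h2
  · exact h3

end hom

/-- Part GSM. -/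
theorem gsm : S_GSM := by
  intro K _ _ a b hs _
  set k := AlgebraicClosure K with hk
  set a' : Fin 3 → Fin 3 → k := ex (algebraMap K k) a with ha'
  set b' : Fin 4 → Fin 4 → k := ex (algebraMap K k) b with hb'
  have key : ∀ u v : Fin 2 → k, (∀ t : k, ![u 0 + v 0 * t, u 1 + v 1 * t] ≠ 0) →
      ∀ w t r : k, ∃ i, six a' b' u v (RingHom.id k) w t r i ≠ 0 := by
    intro u v huv w t r
    by_contra hcon
    push Not at hcon
    refine hs w ![u 0 + v 0 * t, u 1 + v 1 * t] ![1, r] (huv t) ?_ (hcon 0) (hcon 1) (hcon 2)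
      (hcon 3) (hcon 4) (hcon 5)
    intro h0
    have := congrFun h0 0
    simp at this
  have f1 := fin_chart a' b' ![1, 0] ![0, 1] (key _ _ (by
    intro t h0
    have := congrFun h0 0
    simp at this))
  have f2 := fin_chart a' b' ![0, 1] ![1, 0] (key _ _ (by
    intro t h0
    have := congrFun h0 1
    simp at this))
  have f3 := (f1.union f2).preimage (f := algebraMap K k)
    (Set.injOn_of_injective (algebraMap K k).injective)
  refine f3.subset ?_
  rintro r ⟨w, x, hx, g0, g1, g2, g3⟩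
  have g0' : cub (ax a' ![1, algebraMap K k r]) (bx b' ![1, algebraMap K k r]) w x = 0 := g0
  have g1' : cw (ax a' ![1, algebraMap K k r]) w x = 0 := g1
  have g2' : c0 (ax a' ![1, algebraMap K k r]) (bx b' ![1, algebraMap K k r]) w x = 0 := g2
  have g3' : c1 (ax a' ![1, algebraMap K k r]) (bx b' ![1, algebraMap K k r]) w x = 0 := g3
  rw [Set.mem_preimage, Set.mem_union]
  by_cases hx0 : x 0 = 0
  · right
    have hx1 : x 1 ≠ 0 := by
      intro hx1
      apply hx
      ext i
      fin_cases i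
      · exact hx0
      · exact hx1
    refine ⟨(x 1)⁻¹ * w, (x 1)⁻¹ * x 0, fun i =>
      six_zero a' b' _ _ _ _ w (x 1)⁻¹ x ?_ g0' g1' g2' g3' i⟩
    ext j
    fin_cases j
    · simp
    · simp [hx1]
  · left
    refine ⟨(x 0)⁻¹ * w, (x 0)⁻¹ * x 1, fun i =>
      six_zero a' b' _ _ _ _ w (x 0)⁻¹ x ?_ g0' g1' g2' g3' i⟩
    ext j
    fin_cases j
    · simp [hx0]
    · simp

end Pool.Agent.H27.ZK
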